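import Pool.Agent.Helper47.BL.MAIN2
import Pool.Agent.Helper47.BL.CN
import Pool.Agent.Helper47.BL.STR
import Pool.Agent.Helper1.BL.SK
import Pool.Agent.Helper1.BL.CLS
import Pool.Agent.Helper73.BL.SM
import Pool.Agent.Helper77.BL.NU
import Pool.Agent.Helper83.BB.BND
import Pool.Agent.Helper85.BB.ERR
import Pool.Agent.Helper95.BB.DIV
import Pool.Agent.Helper53.BB.MER
import Pool.Agent.Helper61.BB.SOL

set_option autoImplicit false

/-! # Pairs of sets of primes with reciprocal sums of product one: the counting function -/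

namespace Pool.Agent.Results.MP_3c8fe7_nt.CountingBound

open Finset Pool.Agent.Helper44.BB

/-- `P` and `Q` are finite nonempty sets of primes with `σ(P) σ(Q) = 1`, where `σ(S)` is the sum of
the reciprocals of the elements of `S` -/
structure IsSolution (P Q : Finset ℕ) : Prop where
  nonemptyP : P.Nonempty
  nonemptyQ : Q.Nonempty
  primeP : ∀ p ∈ P, p.Prime
  primeQ : ∀ q ∈ Q, q.Prime
  eq : (∑ p ∈ P, 1 / (p : ℚ)) * (∑ q ∈ Q, 1 / (q : ℚ)) = 1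

theorem of_main (hM : Pool.Agent.Helper47.BL.ST_MAIN2) (hS : ST_SOL) :
    ∀ c : ℝ, 0 < c → 2 * c ^ 2 < 1 → ∃ x₀ : ℝ, ∀ x : ℝ, x₀ ≤ x →
    {s : Finset ℕ × Finset ℕ | IsSolution s.1 s.2 ∧ ((∏ p ∈ s.1, p : ℕ) : ℝ) ≤ x}.Finite ∧
    ({s : Finset ℕ × Finset ℕ |
        IsSolution s.1 s.2 ∧ ((∏ p ∈ s.1, p : ℕ) : ℝ) ≤ x}.ncard : ℝ) ≤
      x * Real.exp (-(c * √(Real.log x * Real.log (Real.log x)))) := by
  classical
  intro c hc hc2
  obtain ⟨x₀, hM⟩ := hM c hc hc2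
  refine ⟨x₀, fun x hx => ?_⟩
  obtain ⟨S, hSd⟩ : ∃ S : Set (Finset ℕ × Finset ℕ), S = {s : Finset ℕ × Finset ℕ |
    IsSolution s.1 s.2 ∧ ((∏ p ∈ s.1, p : ℕ) : ℝ) ≤ x} := ⟨_, rfl⟩
  rw [← hSd]
  have hcyc : ∀ s ∈ S, Cyc (∏ p ∈ s.1, p) (∏ q ∈ s.2, q) ∧ ((∏ p ∈ s.1, p : ℕ) : ℝ) ≤ x ∧
      s.1 = (∏ p ∈ s.1, p).primeFactors ∧ s.2 = (∏ q ∈ s.2, q).primeFactors := by
    intro s hs
    rw [hSd] at hs
    exact ⟨hS s.1 s.2 ⟨hs.1.primeP, hs.1.primeQ, hs.1.eq⟩, hs.2,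
      (Nat.primeFactors_prod hs.1.primeP).symm, (Nat.primeFactors_prod hs.1.primeQ).symm⟩
  have hinj : Set.InjOn (fun s : Finset ℕ × Finset ℕ => ∏ p ∈ s.1, p) S := by
    intro s hs t ht hst
    obtain ⟨c1, _, p1, q1⟩ := hcyc s hs
    obtain ⟨c2, _, p2, q2⟩ := hcyc t ht
    have e1 : ∏ p ∈ s.1, p = ∏ p ∈ t.1, p := hst
    have e2 : ∏ q ∈ s.2, q = ∏ q ∈ t.2, q := by rw [← c1.ab, ← c2.ab, e1]
    exact Prod.ext (by rw [p1, p2, e1]) (by rw [q1, q2, e2])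
  have hfin : S.Finite := by
    refine Set.Finite.of_finite_image ((Set.finite_Iic ⌊x⌋₊).subset ?_) hinj
    rintro _ ⟨s, hs, rfl⟩
    exact Nat.le_floor (hcyc s hs).2.1
  refine ⟨hfin, ?_⟩
  have h1 := hM x (hfin.toFinset.image fun s : Finset ℕ × Finset ℕ => ∏ p ∈ s.1, p) hx (by
    intro a ha
    obtain ⟨s, hs, rfl⟩ := mem_image.1 ha
    obtain ⟨c1, c2, _⟩ := hcyc s (hfin.mem_toFinset.1 hs)
    refine ⟨c2, ?_⟩
    rw [c1.ab]
    exact c1)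
  rw [card_image_of_injOn (by rwa [hfin.coe_toFinset]), ← Set.ncard_eq_toFinset_card S hfin] at h1
  rw [Real.exp_neg, ← div_eq_mul_inv]
  exact h1

/-- For every `c < 1/√2` and all large `x` there are at most `x exp(-c √(log x log log x))` pairs
`(P, Q)` of finite nonempty sets of primes with `σ(P) σ(Q) = 1` such that the product of the
elements of `P` is at most `x`. -/
theorem result : ∀ c : ℝ, c < 1 / √2 → ∃ x₀ : ℝ, ∀ x : ℝ, x₀ ≤ x →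
    {s : Finset ℕ × Finset ℕ | IsSolution s.1 s.2 ∧ ((∏ p ∈ s.1, p : ℕ) : ℝ) ≤ x}.Finite ∧
    ({s : Finset ℕ × Finset ℕ |
        IsSolution s.1 s.2 ∧ ((∏ p ∈ s.1, p : ℕ) : ℝ) ≤ x}.ncard : ℝ) ≤
      x * Real.exp (-(c * √(Real.log x * Real.log (Real.log x)))) := by
  intro c hc
  have h2 : (0 : ℝ) < √2 := Real.sqrt_pos.2 (by norm_num)
  have h22 : √2 * √2 = 2 := Real.mul_self_sqrt (by norm_num)
  -- it is enough to treat positive `c`
  obtain ⟨c₁, h1, h3, h4⟩ : ∃ c₁ : ℝ, 0 < c₁ ∧ c ≤ c₁ ∧ 2 * c₁ ^ 2 < 1 := by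
    by_cases hc0 : 0 < c
    · refine ⟨c, hc0, le_rfl, ?_⟩
      rw [lt_div_iff₀ h2] at hc
      have h5 : (c * √2) * (c * √2) < 1 * 1 := mul_self_lt_mul_self (by positivity) hc |>.trans_le
        (by norm_num)
      nlinarith
    · exact ⟨1 / 2, by norm_num, by linarith, by norm_num⟩
  obtain ⟨x₀, h⟩ := of_main (Pool.Agent.Helper47.BL.MAIN2 Pool.Agent.Helper83.BB.st_BND
    (Pool.Agent.Helper1.BL.CLS Pool.Agent.Helper47.BL.CN
      (Pool.Agent.Helper47.BL.st_SM Pool.Agent.Helper1.BL.SK st_MER))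
    (Pool.Agent.Helper47.BL.st_SM Pool.Agent.Helper1.BL.SK st_MER)
    (Pool.Agent.Helper47.BL.STR (st_ERR Pool.Agent.Helper83.BB.st_BND) st_DIV)
    Pool.Agent.Helper47.BL.NU) st_SOL c₁ h1 h4
  refine ⟨max x₀ 0, fun x hx => ?_⟩
  obtain ⟨hf, hb⟩ := h x ((le_max_left _ _).trans hx)
  have hx0 : 0 ≤ x := (le_max_right _ _).trans hx
  refine ⟨hf, hb.trans (mul_le_mul_of_nonneg_left (Real.exp_le_exp.2 ?_) hx0)⟩
  have := mul_le_mul_of_nonneg_right h3 (Real.sqrt_nonneg (Real.log x * Real.log (Real.log x)))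
  linarith

end Pool.Agent.Results.MP_3c8fe7_nt.CountingBound
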