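import Mathlib
import Pool.Agent.Helper83.BR.Cong

set_option autoImplicit false

/-! # Pairs of sets of primes with reciprocal sums of product one: conditions from reciprocity -/

namespace Pool.Agent.Results.MP_3c8fe7_nt.Reciprocity

open Finset

/-- number of elements of `S` congruent to `r` modulo `m` -/
def cnt (S : Finset ℕ) (m r : ℕ) : ℕ := (S.filter (fun p => p % m = r)).card

/-- Let `P`, `Q` be finite sets of primes with `σ(P) σ(Q) = 1`, `S = P ∪ Q` and `n` the product of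
`S`.  Then `n / p` is a square modulo `p` for all `p` in `S`; if `2` is in `S`, then the number of
primes `1` modulo `4` in `S` is `2` modulo `4`; if not, the number `t` of primes `3` modulo `4` is
`0` or `1` modulo `4` and the number of primes `1` modulo `4` is `t + 2` modulo `4`. -/
theorem result (P Q : Finset ℕ) (hP : ∀ p ∈ P, p.Prime) (hQ : ∀ q ∈ Q, q.Prime)
    (h : (∑ p ∈ P, 1 / (p : ℚ)) * (∑ q ∈ Q, 1 / (q : ℚ)) = 1) :
    (∀ p ∈ P ∪ Q, IsSquare ((∏ q ∈ (P ∪ Q).erase p, q : ℕ) : ZMod p)) ∧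
    (2 ∈ P ∪ Q → cnt (P ∪ Q) 4 1 % 4 = 2) ∧
    (2 ∉ P ∪ Q → cnt (P ∪ Q) 4 3 % 4 ≤ 1 ∧
      cnt (P ∪ Q) 4 1 % 4 = cnt (P ∪ Q) 4 3 % 4 + 2) := by
  have hs : Pool.Agent.Helper83.BR.Sol P Q := ⟨hP, hQ, h⟩
  exact ⟨fun p hp => hs.sq hp, hs.even_case, hs.odd_case⟩

end Pool.Agent.Results.MP_3c8fe7_nt.Reciprocity
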